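import Pool.Agent.T6.H7.PF.Defs

set_option autoImplicit false

/-! Module M3 of project PF: counting points of a section with a reduced basis. -/

namespace Pool.Agent.T6.H32.PF

open Pool.Agent.T6.H7.PF

theorem m3 : StmtM1 → StmtM2 → StmtM := by
  intro h1 h2 n M τ hM hτ hk
  obtain ⟨b, hb1, hb2, hb3, hb4, hb5, hb6⟩ := h1 n M τ hM hτ
  refine ⟨b, hb1, hb2, hb3, hb4, hb5, ?_⟩
  obtain ⟨V, hV⟩ : ∃ V : Submodule ℝ (E n), V = Submodule.span ℝ (bal M τ) := ⟨_, rfl⟩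
  have hkR : (0 : ℝ) < Module.finrank ℝ (Submodule.span ℝ (bal M τ)) := by exact_mod_cast hk
  have hsq : 0 < Real.sqrt (Module.finrank ℝ (Submodule.span ℝ (bal M τ))) := Real.sqrt_pos.2 hkR
  obtain ⟨hfin, hcnt⟩ := h2 n _ b
    (Real.sqrt (Module.finrank ℝ (Submodule.span ℝ (bal M τ))) * τ) hk hb2 (by positivity)
  have hg : ∀ i, 0 < gsn b i := fun i =>
    norm_pos_iff.2 (InnerProductSpace.gramSchmidt_ne_zero i hb2)
  have hsub : bal (sec M (Submodule.span ℝ (bal M τ)))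
      (Real.sqrt (Module.finrank ℝ (Submodule.span ℝ (bal M τ))) * τ) ⊆
      (fun c : Fin (Module.finrank ℝ (Submodule.span ℝ (bal M τ))) → ℤ => ∑ i, c i • b i) ''
      {c | ‖∑ i, c i • b i‖ ≤
        Real.sqrt (Module.finrank ℝ (Submodule.span ℝ (bal M τ))) * τ} := by
    rintro x ⟨⟨hx1, hx2⟩, hx3⟩
    obtain ⟨c, hc⟩ := hb6 x hx1 hx2
    refine ⟨c, ?_, hc.symm⟩
    show ‖∑ i, c i • b i‖ ≤ _
    rw [← hc]
    exact hx3
  have h3 : cnt (sec M (Submodule.span ℝ (bal M τ)))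
      (Real.sqrt (Module.finrank ℝ (Submodule.span ℝ (bal M τ))) * τ) ≤
      {c : Fin (Module.finrank ℝ (Submodule.span ℝ (bal M τ))) → ℤ | ‖∑ i, c i • b i‖ ≤
        Real.sqrt (Module.finrank ℝ (Submodule.span ℝ (bal M τ))) * τ}.ncard :=
    (Set.ncard_le_ncard hsub (hfin.image _)).trans (Set.ncard_image_le hfin)
  refine (Nat.cast_le.2 h3).trans (hcnt.trans ?_)
  refine mul_le_mul_of_nonneg_left ?_ (Real.exp_pos _).le
  refine Finset.prod_le_prod (fun i _ => ?_) (fun i _ => ?_)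
  · have := hg i
    positivity
  · have h4 := hg i
    have h5 : 2 * (Real.sqrt (Module.finrank ℝ (Submodule.span ℝ (bal M τ))) * τ) /
        (Real.sqrt (Module.finrank ℝ (Submodule.span ℝ (bal M τ))) * gsn b i) =
        2 * τ / gsn b i := by
      field_simp
    rw [h5, le_div_iff₀ h4, add_mul, div_mul_cancel₀ _ h4.ne']
    linarith [hb4 i]

end Pool.Agent.T6.H32.PF
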