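import Pool.Agent.T6.H7.PF.Defs
import Pool.Agent.Results.MP_dd2a7c_co.WeakMarton

set_option autoImplicit false

/-! Module W2 of project PF: sections with many points, from the weak Freiman-Ruzsa theorem. -/

namespace Pool.Agent.T6.H32.PF

open Pool.Agent.T6.H7.PF
open scoped Pointwise

theorem w2 : StmtW2 := by
  classical
  intro n M r K hM hr hK hcnt
  obtain ⟨A, hA⟩ : ∃ A : Finset (E n), A = (hM r).toFinset := ⟨_, rfl⟩
  have hmemA : ∀ x, x ∈ A ↔ x ∈ M ∧ ‖x‖ ≤ r := by
    intro x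
    rw [hA, Set.Finite.mem_toFinset]
    rfl
  have hAcard : cnt M r = A.card := by
    rw [hA, cnt, Set.ncard_eq_toFinset_card _ (hM r)]
  have hAne : A.Nonempty := ⟨0, (hmemA 0).2 ⟨M.zero_mem, by simpa using hr.le⟩⟩
  have hAA : ((A + A).card : ℝ) ≤ K * (A.card : ℝ) := by
    rw [← hAcard]
    refine le_trans ?_ hcnt
    have h1 : ((A + A : Finset (E n)) : Set (E n)) ⊆ bal M (2 * r) := by
      intro x hx
      rw [Finset.mem_coe, Finset.mem_add] at hx
      obtain ⟨y, hy, z, hz, rfl⟩ := hx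
      obtain ⟨hy1, hy2⟩ := (hmemA y).1 hy
      obtain ⟨hz1, hz2⟩ := (hmemA z).1 hz
      exact ⟨M.add_mem hy1 hz1, (norm_add_le _ _).trans (by linarith)⟩
    have h2 := Set.ncard_le_ncard h1 (hM (2 * r))
    rw [Set.ncard_coe_finset] at h2
    exact_mod_cast h2
  obtain ⟨P, S, T, hPf, -, -, hS, hTA, hT, hcov⟩ :=
    Pool.Agent.Results.MP_dd2a7c_co.WeakMarton.result K A hAne hAA
  -- torsion free
  have htf : ∀ (m : ℕ) (x : E n), m ≠ 0 → m • x = 0 → x = 0 := by
    intro m x hm hx
    have hx' : (m : ℝ) • x = 0 := by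
      rw [Nat.cast_smul_eq_nsmul]
      exact hx
    rcases smul_eq_zero.1 hx' with h | h
    · exact absurd (by exact_mod_cast h) hm
    · exact h
  have hP : ∀ x ∈ P, x = 0 := by
    intro x hx
    have h1 : addOrderOf (⟨x, hx⟩ : P) ≠ 0 := (isOfFinAddOrder_of_finite _).addOrderOf_pos.ne'
    have h3 : addOrderOf (⟨x, hx⟩ : P) • x = 0 := by simp
    exact htf _ x h1 h3
  obtain ⟨V, hV⟩ : ∃ V : Submodule ℝ (E n), V = Submodule.span ℝ (S : Set (E n)) := ⟨_, rfl⟩
  have hSV : P ⊔ AddSubgroup.closure (S : Set (E n)) ≤ V.toAddSubgroup := by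
    refine sup_le ?_ ?_
    · intro x hx
      rw [hP x hx]
      exact V.toAddSubgroup.zero_mem
    · rw [AddSubgroup.closure_le, hV]
      exact Submodule.subset_span
  refine ⟨V, ?_, ?_⟩
  · have h1 : Module.finrank ℝ V ≤ S.card := by
      rw [hV]
      exact finrank_span_finset_le_card S
    exact (Nat.cast_le.2 h1).trans hS
  · have hfinV : (bal (sec M V) (2 * r)).Finite :=
      (hM (2 * r)).subset fun x hx => ⟨hx.1.1, hx.2⟩
    have h1 : A.card ≤ ∑ t ∈ T, (A.filter (fun a => a - t ∈ V)).card := by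
      refine (Finset.card_le_card ?_).trans Finset.card_biUnion_le
      intro a ha
      rw [Finset.mem_biUnion]
      obtain ⟨t, ht, o, ⟨m, hm, hmo⟩, hmem⟩ := hcov a ha
      have ho : o = 0 := htf m o (by rintro rfl; exact absurd hm (by decide)) hmo
      rw [ho, sub_zero] at hmem
      exact ⟨t, ht, Finset.mem_filter.2 ⟨ha, hSV hmem⟩⟩
    have h2 : ∀ t ∈ T, (A.filter (fun a => a - t ∈ V)).card ≤ cnt (sec M V) (2 * r) := by
      intro t ht
      obtain ⟨ht1, ht2⟩ := (hmemA t).1 (hTA ht)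
      have h3 : ((A.filter (fun a => a - t ∈ V)).image (fun a => a - t) : Set (E n)) ⊆
          bal (sec M V) (2 * r) := by
        intro x hx
        rw [Finset.mem_coe, Finset.mem_image] at hx
        obtain ⟨a, ha, rfl⟩ := hx
        rw [Finset.mem_filter] at ha
        obtain ⟨ha1, ha2⟩ := (hmemA a).1 ha.1
        exact ⟨⟨M.sub_mem ha1 ht1, ha.2⟩, (norm_sub_le _ _).trans (by linarith)⟩
      have h4 := Set.ncard_le_ncard h3 hfinV
      rw [Set.ncard_coe_finset, Finset.card_image_of_injective _ (sub_left_injective)] at h4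
      exact h4
    have h5 : A.card ≤ T.card * cnt (sec M V) (2 * r) := by
      refine h1.trans ((Finset.sum_le_sum h2).trans (le_of_eq ?_))
      rw [Finset.sum_const, smul_eq_mul]
    rw [hAcard]
    calc (A.card : ℝ) ≤ (T.card : ℝ) * cnt (sec M V) (2 * r) := by exact_mod_cast h5
      _ ≤ K ^ 185 * cnt (sec M V) (2 * r) := mul_le_mul_of_nonneg_right hT (by positivity)

end Pool.Agent.T6.H32.PF
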